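import Pool.Agent.W519.N

open Set Topology Filter

namespace Pool.Agent.W519.N

theorem not_allNormal_of_grid {X : Type*} [TopologicalSpace X] [T2Space X] (p : X)
    (N : ℕ → Set X) (hN : (𝓝 p).HasBasis (fun _ : ℕ => True) N)
    (x : ℕ → ℕ → X) (hx : ∀ m k, x m k ∈ N m) (hxp : ∀ m k, x m k ≠ p)
    (hxl : ∀ m, LocallyFinite (fun k => ({x m k} : Set X)))
    (W : ℕ → Set X) (hW : LocallyFinite W) (hWd : Pairwise (Function.onFun Disjoint W))
    (hWN : ∀ m n, Disjoint (W m) (N n))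
    (q : ℕ → X) (hq : ∀ m, q m ∈ W m) (y : ℕ → ℕ → X) (hy : ∀ m k, y m k ∈ W m)
    (hyq : ∀ m k, y m k ≠ q m) (hyc : ∀ m, q m ∈ closure (range (y m))) : ¬ AllNormal X := by
  intro hall
  have hyx : ∀ m k m' k', y m k ≠ x m' k' := by
    intro m k m' k' h
    exact Set.disjoint_left.1 (hWN m m') (hy m k) (h ▸ hx m' k')
  have hidx : ∀ m m' (z : X), z ∈ W m → z ∈ W m' → m = m' := by
    intro m m' z h1 h2
    by_contra hne
    exact Set.disjoint_left.1 (hWd hne) h1 h2
  let R : X → X → Prop := fun u v => u = v ∨ ∃ m k, u = y m k ∧ v = x m k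
  have hR : ClosedPreorder R := by
    refine ⟨fun z => Or.inl rfl, ?_, ?_⟩
    · rintro a b c (h1 | ⟨m, k, h1, h1'⟩) (h2 | ⟨m', k', h2, h2'⟩)
      · exact Or.inl (h1.trans h2)
      · exact Or.inr ⟨m', k', h1.trans h2, h2'⟩
      · exact Or.inr ⟨m, k, h1, h2 ▸ h1'⟩
      · exact (hyx m' k' m k (h2.symm.trans h1')).elim
    · have hset : {z : X × X | R z.1 z.2} = {z : X × X | z.1 = z.2} ∪
          ⋃ i : ℕ × ℕ, ({(y i.1 i.2, x i.1 i.2)} : Set (X × X)) := by
        ext ⟨a, b⟩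
        simp only [Set.mem_ofPred_eq, mem_union, mem_iUnion, mem_singleton_iff, Prod.mk.injEq,
          Prod.exists, R]
      rw [hset]
      refine (isClosed_eq continuous_fst continuous_snd).union ?_
      refine LocallyFinite.isClosed_iUnion ?_ (fun i => isClosed_singleton)
      rintro ⟨s, t⟩
      obtain ⟨S, hS, hSf⟩ := hW s
      have hT : ∀ m, ∃ T ∈ 𝓝 t, {k | (({x m k} : Set X) ∩ T).Nonempty}.Finite := fun m => hxl m t
      choose T hT hTf using hT
      refine ⟨S ×ˢ ⋂ m ∈ {m | (W m ∩ S).Nonempty}, T m, ?_, ?_⟩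
      · rw [nhds_prod_eq]
        exact Filter.prod_mem_prod hS ((Filter.biInter_mem hSf).2 fun m _ => hT m)
      · have hfin : (⋃ m ∈ {m | (W m ∩ S).Nonempty},
            (fun k => (m, k)) '' {k | (({x m k} : Set X) ∩ T m).Nonempty}).Finite :=
          hSf.biUnion fun m _ => (hTf m).image _
        refine hfin.subset ?_
        rintro ⟨m, k⟩ ⟨⟨a, b⟩, h1, h2⟩
        simp only [mem_singleton_iff, Prod.mk.injEq] at h1
        obtain ⟨rfl, rfl⟩ := h1
        obtain ⟨h3, h4⟩ := h2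
        have h5 : (W m ∩ S).Nonempty := ⟨y m k, hy m k, h3⟩
        have h6 : x m k ∈ T m := by
          have := mem_iInter₂.1 h4 m h5
          exact this
        refine mem_iUnion₂.2 ⟨m, h5, ?_⟩
        exact ⟨k, ⟨x m k, rfl, h6⟩, rfl⟩
  have hp0 : ∀ m, p ∈ N m := fun m => mem_of_mem_nhds (hN.mem_of_mem trivial)
  have hA : IsClosed ({p} : Set X) := isClosed_singleton
  have hAd : Dec R ({p} : Set X) := by
    rintro z w (h | ⟨m, k, -, h⟩) hw
    · rw [h]; exact hw
    · exact (hxp m k (h.symm.trans hw)).elim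
  have hB : IsClosed (range q) := by
    have h1 : range q = ⋃ m, ({q m} : Set X) := by
      ext z; simp [eq_comm]
    rw [h1]
    refine LocallyFinite.isClosed_iUnion ?_ (fun i => isClosed_singleton)
    exact hW.subset fun m => singleton_subset_iff.2 (hq m)
  have hBi : Inc R (range q) := by
    rintro w z (h | ⟨m, k, h, h'⟩) hw
    · rw [← h]; exact hw
    · obtain ⟨m', hm'⟩ := hw
      have h2 : m = m' := hidx m m' w (h ▸ hy m k) (hm' ▸ hq m')
      subst h2
      exact (hyq m k (h.symm.trans hm'.symm)).elim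
  have hAB : Disjoint ({p} : Set X) (range q) := by
    rw [Set.disjoint_left]
    rintro z hz ⟨m, hm⟩
    have hz' : z = p := hz
    exact Set.disjoint_left.1 (hWN m 0) (hq m) (by rw [hm, hz']; exact hp0 0)
  obtain ⟨U, V, hU, hUd, hV, hVi, hAU, hBV, hUV⟩ := hall R hR {p} (range q) hA hAd hB hBi hAB
  have hUp : U ∈ 𝓝 p := hU.mem_nhds (hAU rfl)
  obtain ⟨m, -, hm⟩ := hN.mem_iff.1 hUp
  obtain ⟨z, hzV, k, hk⟩ := mem_closure_iff.1 (hyc m) V hV (hBV ⟨m, rfl⟩)
  have h1 : y m k ∈ U := hUd (y m k) (x m k) (Or.inr ⟨m, k, rfl, rfl⟩) (hm (hx m k))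
  exact Set.disjoint_left.1 hUV h1 (hk ▸ hzV)

end Pool.Agent.W519.N

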