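import Mathlib

/-!
# Rectifiable p-spaces with countable cellularity are Lindelof

The first part (down to `E_base`) is taken from the starting file `Pool.Agent.H960R3.Rect`, with the
universe made arbitrary.
-/

set_option autoImplicit false

open Set Topology Filter

universe u

namespace Pool.Agent.W649.Rect

variable {X : Type u} [TopologicalSpace X]

/-- The data: continuous operations `p`, `q` and a compact set `K` with countable outer base. -/
structure Data (X : Type u) [TopologicalSpace X] where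
  p : X × X → X
  q : X × X → X
  e : X
  hp : Continuous p
  hq : Continuous q
  pq : ∀ x y, p (x, q (x, y)) = y
  qp : ∀ x y, q (x, p (x, y)) = y
  qe : ∀ x, q (x, x) = e
  K : Set X
  hK : IsCompact K
  eK : e ∈ K
  U : ℕ → Set X
  C : ℕ → Set X
  hU : ∀ n, IsOpen (U n)
  hC : ∀ n, IsClosed (C n)
  KU : ∀ n, K ⊆ U n
  UC : ∀ n, U n ⊆ C n
  CU : ∀ n, C (n + 1) ⊆ U n
  base : ∀ O : Set X, IsOpen O → K ⊆ O → ∃ n, U n ⊆ O
  inter : ∀ x, (∀ n, x ∈ U n) → x ∈ K

namespace Data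

variable (d : Data X)

theorem U_anti {m n : ℕ} (h : m ≤ n) : d.U n ⊆ d.U m := by
  induction h with
  | refl => exact Subset.rfl
  | step _ ih => exact ((d.UC _).trans (d.CU _)).trans ih

theorem pe (x : X) : d.p (x, d.e) = x := by
  rw [← d.qe x, d.pq]

/-- The symmetric neighbourhoods of the diagonal. -/
def Dn (n : ℕ) (x y : X) : Prop :=
  ∀ k ∈ d.K, d.q (y, d.p (x, k)) ∈ d.U n ∧ d.q (x, d.p (y, k)) ∈ d.U n

/-- The equivalence relation. -/
def R (x y : X) : Prop :=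
  ∀ k ∈ d.K, d.q (y, d.p (x, k)) ∈ d.K ∧ d.q (x, d.p (y, k)) ∈ d.K

theorem R_Dn {x y : X} (h : d.R x y) (n : ℕ) : d.Dn n x y :=
  fun k hk => ⟨d.KU n (h k hk).1, d.KU n (h k hk).2⟩

theorem R_of_Dn {x y : X} (h : ∀ n, d.Dn n x y) : d.R x y :=
  fun k hk => ⟨d.inter _ fun n => (h n k hk).1, d.inter _ fun n => (h n k hk).2⟩

theorem Dn_symm {n : ℕ} {x y : X} (h : d.Dn n x y) : d.Dn n y x :=
  fun k hk => ⟨(h k hk).2, (h k hk).1⟩

theorem R_symm {x y : X} (h : d.R x y) : d.R y x :=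
  fun k hk => ⟨(h k hk).2, (h k hk).1⟩

theorem R_refl (x : X) : d.R x x := fun k hk => by simp [d.qp, hk]

theorem Dn_anti {m n : ℕ} (h : m ≤ n) {x y : X} (hd : d.Dn n x y) : d.Dn m x y :=
  fun k hk => ⟨d.U_anti h (hd k hk).1, d.U_anti h (hd k hk).2⟩

theorem R_trans_aux {x y z : X} (h1 : d.R x y) (h2 : d.R y z) (k : X) (hk : k ∈ d.K) :
    d.q (z, d.p (x, k)) ∈ d.K := by
  have h3 := (h1 k hk).1
  have h4 := (h2 _ h3).1
  rwa [d.pq] at h4

theorem R_trans {x y z : X} (h1 : d.R x y) (h2 : d.R y z) : d.R x z :=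
  fun k hk => ⟨d.R_trans_aux h1 h2 k hk, d.R_trans_aux (d.R_symm h2) (d.R_symm h1) k hk⟩

theorem isOpen_Dn (n : ℕ) : IsOpen {z : X × X | d.Dn n z.1 z.2} := by
  rw [isOpen_iff_mem_nhds]
  rintro z hz
  have := d.hK.eventually_forall_of_forall_eventually (x₀ := z)
    (P := fun z k => d.q (z.2, d.p (z.1, k)) ∈ d.U n ∧ d.q (z.1, d.p (z.2, k)) ∈ d.U n) ?_
  · exact this
  · intro k hk
    have c1 : Continuous fun w : (X × X) × X => d.q (w.1.2, d.p (w.1.1, w.2)) :=
      d.hq.comp ((continuous_snd.comp continuous_fst).prodMk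
        (d.hp.comp ((continuous_fst.comp continuous_fst).prodMk continuous_snd)))
    have c2 : Continuous fun w : (X × X) × X => d.q (w.1.1, d.p (w.1.2, w.2)) :=
      d.hq.comp ((continuous_fst.comp continuous_fst).prodMk
        (d.hp.comp ((continuous_snd.comp continuous_fst).prodMk continuous_snd)))
    have e1 := (c1.continuousAt (x := (z, k))).preimage_mem_nhds
      ((d.hU n).mem_nhds (hz k hk).1)
    have e2 := (c2.continuousAt (x := (z, k))).preimage_mem_nhds
      ((d.hU n).mem_nhds (hz k hk).2)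
    filter_upwards [e1, e2] with w h1 h2 using ⟨h1, h2⟩

/-- Off the relation `R`, some `Dn n` fails in a neighbourhood. -/
theorem not_R {x y : X} (h : ¬ d.R x y) : ∃ n, ∀ᶠ z : X × X in 𝓝 (x, y), ¬ d.Dn n z.1 z.2 := by
  have h' : ¬ ∀ n, d.Dn n x y := fun h' => h (d.R_of_Dn h')
  push Not at h'
  obtain ⟨m, hm⟩ := h'
  unfold Dn at hm
  push Not at hm
  obtain ⟨k, hk, hm⟩ := hm
  refine ⟨m + 1, ?_⟩
  have c1 : Continuous fun w : X × X => d.q (w.2, d.p (w.1, k)) :=
    d.hq.comp (continuous_snd.prodMk (d.hp.comp (continuous_fst.prodMk continuous_const)))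
  have c2 : Continuous fun w : X × X => d.q (w.1, d.p (w.2, k)) :=
    d.hq.comp (continuous_fst.prodMk (d.hp.comp (continuous_snd.prodMk continuous_const)))
  by_cases h1 : d.q (y, d.p (x, k)) ∈ d.U m
  · have h2 := hm h1
    have h3 : d.q (x, d.p (y, k)) ∉ d.C (m + 1) := fun h => h2 (d.CU m h)
    have e2 := (c2.continuousAt (x := (x, y))).preimage_mem_nhds
      ((d.hC (m + 1)).isOpen_compl.mem_nhds h3)
    filter_upwards [e2] with w hw hD
    exact hw (d.UC _ (hD k hk).2)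
  · have h3 : d.q (y, d.p (x, k)) ∉ d.C (m + 1) := fun h => h1 (d.CU m h)
    have e2 := (c1.continuousAt (x := (x, y))).preimage_mem_nhds
      ((d.hC (m + 1)).isOpen_compl.mem_nhds h3)
    filter_upwards [e2] with w hw hD
    exact hw (d.UC _ (hD k hk).1)

theorem Dn_q {n : ℕ} {x y : X} (h : d.Dn n x y) : d.q (x, y) ∈ d.U n := by
  have := (h d.e d.eK).2
  rwa [d.pe] at this

theorem R_q {x y : X} (h : d.R x y) : d.q (x, y) ∈ d.K := by
  have := (h d.e d.eK).2
  rwa [d.pe] at this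

/-- `{x} × O`-type statement: joint upper semicontinuity. -/
theorem usc (x : X) {O : Set X} (hO : IsOpen O) (h : ∀ y, d.R x y → y ∈ O) :
    ∃ n, ∀ᶠ x' in 𝓝 x, ∀ y, d.Dn n x' y → y ∈ O := by
  set L : Set X := (fun k => d.p (x, k)) '' d.K with hL
  have hLc : IsCompact L := d.hK.image (d.hp.comp (continuous_const.prodMk continuous_id))
  have hLO : IsCompact (L \ O) := hLc.diff hO
  let G : ℕ → Set (X × X) := fun n => interior {z : X × X | ¬ d.Dn n z.1 z.2}
  have hG : ∀ n, IsOpen (G n) := fun n => isOpen_interior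
  have hGm : ∀ m n, m ≤ n → G m ⊆ G n := fun m n hmn =>
    interior_mono fun z hz hD => hz (d.Dn_anti hmn hD)
  obtain ⟨n, hn⟩ := hLO.elim_directed_cover (fun n => (fun y => (x, y)) ⁻¹' G n)
    (fun n => (hG n).preimage (by fun_prop)) (by
      intro y hy
      have : ¬ d.R x y := fun hR => hy.2 (h y hR)
      obtain ⟨n, hn⟩ := d.not_R this
      exact mem_iUnion.2 ⟨n, mem_interior_iff_mem_nhds.2 hn⟩) (by
      intro m n
      exact ⟨max m n, preimage_mono (hGm _ _ (le_max_left _ _)),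
        preimage_mono (hGm _ _ (le_max_right _ _))⟩)
  obtain ⟨u, v, hu, hv, hxu, hLv, huv⟩ := generalized_tube_lemma (isCompact_singleton (x := x)) hLO
    (hG n) (by
      rintro ⟨a, b⟩ ⟨ha, hb⟩
      rw [mem_singleton_iff] at ha
      subst ha
      exact hn hb)
  obtain ⟨u', v', hu', hv', hxu', hKv', huv'⟩ := generalized_tube_lemma
    (isCompact_singleton (x := x)) d.hK ((hv.union hO).preimage d.hp) (by
      rintro ⟨a, b⟩ ⟨ha, hb⟩
      rw [mem_singleton_iff] at ha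
      subst ha
      by_cases hb' : d.p (a, b) ∈ O
      · exact Or.inr hb'
      · exact Or.inl (hLv ⟨⟨b, hb, rfl⟩, hb'⟩))
  obtain ⟨n', hn'⟩ := d.base v' hv' hKv'
  refine ⟨max n n', ?_⟩
  filter_upwards [hu.mem_nhds (hxu rfl), hu'.mem_nhds (hxu' rfl)] with x' hx1 hx2 y hy
  have h1 : d.q (x', y) ∈ v' := hn' (d.U_anti (le_max_right _ _) (d.Dn_q hy))
  have h2 : d.p (x', d.q (x', y)) ∈ v ∪ O := huv' (mk_mem_prod hx2 h1)
  rw [d.pq] at h2
  rcases h2 with h2 | h2
  · exact absurd (d.Dn_anti (le_max_left _ _) hy) (interior_subset (huv (mk_mem_prod hx1 h2)))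
  · exact h2

theorem isCompact_class [T2Space X] (x : X) : IsCompact {y | d.R x y} := by
  set L : Set X := (fun k => d.p (x, k)) '' d.K with hL
  have hLc : IsCompact L := d.hK.image (d.hp.comp (continuous_const.prodMk continuous_id))
  refine hLc.of_isClosed_subset ?_ ?_
  · rw [← isOpen_compl_iff, isOpen_iff_mem_nhds]
    intro y hy
    obtain ⟨n, hn⟩ := d.not_R hy
    have hc : Continuous fun y : X => (x, y) := by fun_prop
    have := (hc.continuousAt (x := y)).preimage_mem_nhds hn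
    filter_upwards [this] with z hz hR
    exact hz (d.R_Dn hR n)
  · intro y hy
    exact ⟨d.q (x, y), d.R_q hy, d.pq _ _⟩

/-- iterated neighbourhoods -/
def E (n : ℕ) (x : X) : ℕ → Set X
  | 0 => {x}
  | k + 1 => {z | ∃ y ∈ E n x k, d.Dn n y z}

theorem E_anti {m n : ℕ} (h : m ≤ n) (x : X) (k : ℕ) : d.E n x k ⊆ d.E m x k := by
  induction k with
  | zero => exact Subset.rfl
  | succ k ih =>
    rintro z ⟨y, hy, hz⟩
    exact ⟨y, ih hy, d.Dn_anti h hz⟩

theorem E_base [T2Space X] (x : X) (k : ℕ) : ∀ O : Set X, IsOpen O → (∀ y, d.R x y → y ∈ O) →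
    ∃ n, d.E n x k ⊆ O := by
  induction k with
  | zero =>
    intro O _ h
    refine ⟨0, ?_⟩
    rintro z hz
    rw [show z = x from hz]
    exact h x (d.R_refl x)
  | succ k ih =>
    intro O hO h
    let G : ℕ → Set X := fun n => interior {y | ∀ z, d.Dn n y z → z ∈ O}
    obtain ⟨n, hn⟩ := (d.isCompact_class x).elim_directed_cover G (fun n => isOpen_interior) (by
      intro y hy
      obtain ⟨n, hn⟩ := d.usc y hO fun z hz => h z (d.R_trans hy hz)
      exact mem_iUnion.2 ⟨n, mem_interior_iff_mem_nhds.2 hn⟩) (by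
      intro m n
      refine ⟨max m n, ?_, ?_⟩
      · exact interior_mono fun y hy z hz => hy z (d.Dn_anti (le_max_left _ _) hz)
      · exact interior_mono fun y hy z hz => hy z (d.Dn_anti (le_max_right _ _) hz))
    obtain ⟨n', hn'⟩ := ih (G n) isOpen_interior hn
    refine ⟨max n n', ?_⟩
    rintro z ⟨y, hy, hz⟩
    exact interior_subset (hn' (d.E_anti (le_max_right _ _) x k hy)) z
      (d.Dn_anti (le_max_left _ _) hz)


include d in
theorem lindelof [T2Space X]
    (hc : ∀ 𝒰 : Set (Set X), (∀ U ∈ 𝒰, IsOpen U ∧ U.Nonempty) → 𝒰.PairwiseDisjoint id →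
      𝒰.Countable) : LindelofSpace X := by
  classical
  -- the neighbourhoods `{z | Dn n a z}`
  let V : ℕ → X → Set X := fun n a => {z | d.Dn n a z}
  have hV : ∀ n a, IsOpen (V n a) := by
    intro n a
    have h : Continuous fun z : X => (a, z) := by fun_prop
    exact (d.isOpen_Dn n).preimage h
  have hVa : ∀ n a, a ∈ V n a := fun n a => d.R_Dn (d.R_refl a) n
  -- a countable set of centres with dense union
  have h1 : ∀ n, ∃ A : Set X, A.Countable ∧ ∀ O : Set X, IsOpen O → O.Nonempty →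
      ∃ a ∈ A, (V n a ∩ O).Nonempty := by
    intro n
    -- maximal disjoint family of nonempty open sets each inside some `V n a`
    let S : Set (Set (Set X)) := {𝒰 | (∀ U ∈ 𝒰, IsOpen U ∧ U.Nonempty ∧ ∃ a, U ⊆ V n a) ∧
      𝒰.PairwiseDisjoint id}
    obtain ⟨M, hM⟩ := zorn_subset S (by
      intro c hcS hch
      refine ⟨⋃₀ c, ⟨?_, ?_⟩, fun s hs => subset_sUnion_of_mem hs⟩
      · rintro U ⟨s, hs, hU⟩
        exact (hcS hs).1 U hU
      · exact (pairwiseDisjoint_sUnion hch.directedOn).2 fun s hs => (hcS hs).2)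
    have hMc : M.Countable := hc M (fun U hU => ⟨(hM.prop.1 U hU).1, (hM.prop.1 U hU).2.1⟩) hM.prop.2
    have : Nonempty X := ⟨d.e⟩
    choose! a ha using fun U (hU : U ∈ M) => (hM.prop.1 U hU).2.2
    refine ⟨a '' M, hMc.image a, ?_⟩
    intro O hO hOn
    by_contra hcon
    push Not at hcon
    obtain ⟨x, hx⟩ := hOn
    have hW : IsOpen (O ∩ V n x) := hO.inter (hV n x)
    have hdis : ∀ U ∈ M, Disjoint (O ∩ V n x) U := by
      intro U hU
      have h2 := hcon (a U) ⟨U, hU, rfl⟩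
      rw [Set.disjoint_left]
      intro z hz hzU
      have : z ∈ V n (a U) ∩ O := ⟨ha U hU hzU, hz.1⟩
      rw [h2] at this
      exact this
    have hins : insert (O ∩ V n x) M ∈ S := by
      refine ⟨?_, ?_⟩
      · rintro U (rfl | hU)
        · exact ⟨hW, ⟨x, hx, hVa n x⟩, x, inter_subset_right⟩
        · exact hM.prop.1 U hU
      · rw [pairwiseDisjoint_insert]
        exact ⟨hM.prop.2, fun U hU _ => hdis U hU⟩
    have hmem : O ∩ V n x ∈ M := hM.le_of_ge hins (subset_insert _ _) (mem_insert _ _)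
    have := hdis _ hmem
    rw [disjoint_self] at this
    exact (Set.notMem_empty x) (by
      have h3 : x ∈ O ∩ V n x := ⟨hx, hVa n x⟩
      rw [this] at h3
      exact h3)
  choose A hAc hA using h1
  constructor
  rw [isLindelof_iff_countable_subcover]
  intro ι W hWo hW
  -- finite unions
  have h2 : ∀ x, ∃ s : Finset ι, {y | d.R x y} ⊆ ⋃ i ∈ s, W i := by
    intro x
    exact (d.isCompact_class x).elim_finite_subcover W hWo (subset_univ _ |>.trans hW)
  choose s hs using h2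
  have h3 : ∀ x, ∃ n, ∃ a ∈ A n, x ∈ d.E n a 2 ∧ d.E n a 2 ⊆ ⋃ i ∈ s x, W i := by
    intro x
    obtain ⟨n, hn⟩ := d.E_base x 4 (⋃ i ∈ s x, W i) (isOpen_biUnion fun i _ => hWo i)
      (fun y hy => hs x hy)
    obtain ⟨a, ha, z, hz1, hz2⟩ := hA n (V n x) (hV n x) ⟨x, hVa n x⟩
    refine ⟨n, a, ha, ⟨z, ⟨a, rfl, hz1⟩, d.Dn_symm hz2⟩, ?_⟩
    rintro w ⟨w1, ⟨w2, hw2, hw3⟩, hw4⟩
    have hw2' : w2 = a := hw2
    subst hw2'
    exact hn ⟨w1, ⟨w2, ⟨z, ⟨x, rfl, hz2⟩, d.Dn_symm hz1⟩, hw3⟩, hw4⟩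
  -- the countable family
  let P : Set (ℕ × X) := {c | c.2 ∈ A c.1 ∧ ∃ t : Finset ι, d.E c.1 c.2 2 ⊆ ⋃ i ∈ t, W i}
  have hP : P.Countable := by
    have : P ⊆ ⋃ n, (fun a => (n, a)) '' A n := by
      rintro ⟨n, a⟩ ⟨h, -⟩
      exact mem_iUnion.2 ⟨n, a, h, rfl⟩
    exact (countable_iUnion fun n => (hAc n).image _).mono this
  choose! t ht using fun c (hc : c ∈ P) => hc.2
  refine ⟨⋃ c ∈ P, (t c : Set ι), hP.biUnion fun c _ => (t c).countable_toSet, ?_⟩
  intro x _
  obtain ⟨n, a, ha, hx, hsub⟩ := h3 x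
  have hmem : ((n, a) : ℕ × X) ∈ P := ⟨ha, s x, hsub⟩
  obtain ⟨i, hi, hxi⟩ := mem_iUnion₂.1 (ht _ hmem hx)
  exact mem_iUnion₂.2 ⟨i, mem_iUnion₂.2 ⟨(n, a), hmem, hi⟩, hxi⟩

end Data

end Pool.Agent.W649.Rect
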